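import Pool.Agent.helper99.ZQ.Spec
import Pool.Agent.helper76.ZP.DJ1

set_option autoImplicit false
set_option linter.unusedVariables false

namespace Pool.Agent.ZQ

open Finset
open Pool.Agent.helper32.Cant
open Pool.Agent.GA (nrm chi ch St sg flp Psi rc ph pot rpot far nc gf ncs gfs good mj om pick pat et kap mult)
open Pool.Agent.ZR
open Pool.Agent.ZP
open scoped ENNReal

noncomputable section

theorem DJ4 (hFR2 : Pool.Agent.ZP.FR2_stmt) : DJ4_stmt := by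
  intro C₀ hC₀ P s₀ hs₀ hPb hcont n
  classical
  have hN : (0 : ℝ) < 3 ^ n := by positivity
  set Q : Finset (ℕ × ℕ) := (range (3 ^ n) ×ˢ range (3 ^ n)).filter
    (fun q => ∃ p ∈ P, ⌊(3 : ℝ) ^ n * p.1⌋₊ = q.1 ∧ ⌊(3 : ℝ) ^ n * p.2⌋₊ = q.2) with hQ
  have hpst : ∀ i, 0 < pst C₀ i := fun i => div_pos (Real.exp_pos _) (by positivity)
  obtain ⟨a, A, ha0, haE, hcell, hAn, hAc, hAs⟩ := hFR2 n (pst C₀) hpst Q (fun q hq => by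
    obtain ⟨h1, h2⟩ := mem_product.1 (mem_filter.1 hq).1
    exact ⟨mem_range.1 h1, mem_range.1 h2⟩)
  -- the cells of `A` cover `P`
  have hcov : ∀ p ∈ P, ∃ c ∈ A, ⌊(3 : ℝ) ^ c.1 * p.1⌋ = (c.2.1 : ℤ) ∧ ⌊(3 : ℝ) ^ c.1 * p.2⌋ = (c.2.2 : ℤ) := by
    intro p hp
    obtain ⟨h0, h1, h2, h3⟩ := hPb p hp
    have hlt : ∀ x : ℝ, 0 ≤ x → x < 1 → ⌊(3 : ℝ) ^ n * x⌋₊ < 3 ^ n := by
      intro x hx0 hx1
      rw [Nat.floor_lt (by positivity)]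
      push_cast
      nlinarith
    obtain ⟨c, hc, hc2, hc3⟩ := hAc (⌊(3 : ℝ) ^ n * p.1⌋₊, ⌊(3 : ℝ) ^ n * p.2⌋₊) (mem_filter.2
      ⟨mem_product.2 ⟨mem_range.2 (hlt _ h0 h1), mem_range.2 (hlt _ h2 h3)⟩, p, hp, rfl, rfl⟩)
    exact ⟨c, hc, DJ1_floor n c.1 (hAn c hc) p.1 h0 _ _ rfl hc2, DJ1_floor n c.1 (hAn c hc) p.2 h2 _ _ rfl hc3⟩
  have hσs : s₀ < ∑ q ∈ Q, a q := by
    have h1 := hcont.trans_le (DJ1_cont C₀ P A hcov)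
    have h2 : s₀ < ∑ s ∈ A, pst C₀ s.1 := by
      by_contra hh
      exact absurd h1 (not_lt.2 (ENNReal.ofReal_le_ofReal (not_lt.1 hh)))
    linarith
  set F : Finset (ℕ × ℕ) := Q.filter (fun z => 0 < a z) with hF
  have hFm : ∀ z : F, z.1.1 < 3 ^ n ∧ z.1.2 < 3 ^ n ∧ 0 < a z.1 ∧
      ∃ p ∈ P, ⌊(3 : ℝ) ^ n * p.1⌋₊ = z.1.1 ∧ ⌊(3 : ℝ) ^ n * p.2⌋₊ = z.1.2 := by
    intro z
    obtain ⟨h1, h2⟩ := mem_filter.1 z.2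
    obtain ⟨h3, h4⟩ := mem_filter.1 h1
    obtain ⟨h5, h6⟩ := mem_product.1 h3
    exact ⟨mem_range.1 h5, mem_range.1 h6, h2, h4⟩
  let c : Fam n F :=
    { ctr := fun z => z.1.1
      R := fun z => 3 ^ n + z.1.2
      a := fun z => a z.1 * 3 ^ n
      hc := fun z => (hFm z).1
      lo := fun z => Nat.le_add_right _ _
      hi := fun z => by have := (hFm z).2.1; omega
      pos := fun z => mul_pos (hFm z).2.2.1 hN }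
  refine ⟨F, inferInstance, c, ?_, ?_, ?_⟩
  · -- total mass
    have h1 : Wt c = ∑ z ∈ F, a z * 3 ^ n := sum_coe_sort F (fun z => a z * 3 ^ n)
    have h2 : ∑ z ∈ F, a z * 3 ^ n = ∑ z ∈ Q, a z * 3 ^ n := by
      refine sum_subset (filter_subset _ _) fun z hz1 hz2 => ?_
      have h3 : a z = 0 := by
        by_contra hh
        exact hz2 (mem_filter.2 ⟨hz1, lt_of_le_of_ne (ha0 _) (Ne.symm hh)⟩)
      rw [h3, zero_mul]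
    rw [h1, h2, ← sum_mul]
    exact mul_le_mul_of_nonneg_right hσs.le hN.le
  · -- windows
    intro j hj x r
    set L : ℕ := 3 ^ (n - j) with hL
    have h1 : ∑ z, c.a z * ind (|(c.ctr z : ℤ) - x| ≤ 3 ^ (n - j) ∧ |(c.R z : ℤ) - r| ≤ 3 ^ (n - j)) =
        ∑ z ∈ F, a z * 3 ^ n * ind (|(z.1 : ℤ) - x| ≤ 3 ^ (n - j) ∧ |(((3 ^ n + z.2 : ℕ)) : ℤ) - r| ≤ 3 ^ (n - j)) :=
      sum_coe_sort F (fun z => a z * 3 ^ n * ind (|(z.1 : ℤ) - x| ≤ 3 ^ (n - j) ∧ |(((3 ^ n + z.2 : ℕ)) : ℤ) - r| ≤ 3 ^ (n - j)))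
    have h2 : ∑ z ∈ F, a z * 3 ^ n * ind (|(z.1 : ℤ) - x| ≤ 3 ^ (n - j) ∧ |(((3 ^ n + z.2 : ℕ)) : ℤ) - r| ≤ 3 ^ (n - j)) ≤
        ∑ z ∈ Q, a z * 3 ^ n * ind (|(z.1 : ℤ) - x| ≤ 3 ^ (n - j) ∧ |(((3 ^ n + z.2 : ℕ)) : ℤ) - r| ≤ 3 ^ (n - j)) :=
      sum_le_sum_of_subset_of_nonneg (filter_subset _ _) fun z _ _ =>
        mul_nonneg (mul_nonneg (ha0 _) hN.le) (DJ1_ind_nonneg _)
    have h3 : ∑ z ∈ Q, a z * 3 ^ n * ind (|(z.1 : ℤ) - x| ≤ 3 ^ (n - j) ∧ |(((3 ^ n + z.2 : ℕ)) : ℤ) - r| ≤ 3 ^ (n - j)) =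
        3 ^ n * ∑ z ∈ Q, a z * ind (|(z.1 : ℤ) - x| ≤ (L : ℤ) ∧ |(z.2 : ℤ) - ((r : ℤ) - 3 ^ n)| ≤ (L : ℤ)) := by
      rw [mul_sum]
      refine sum_congr rfl fun z _ => ?_
      have h5 : (|(z.1 : ℤ) - x| ≤ 3 ^ (n - j) ∧ |(((3 ^ n + z.2 : ℕ)) : ℤ) - r| ≤ 3 ^ (n - j)) ↔
          (|(z.1 : ℤ) - x| ≤ (L : ℤ) ∧ |(z.2 : ℤ) - ((r : ℤ) - 3 ^ n)| ≤ (L : ℤ)) := by
        have h6 : (((3 ^ n + z.2 : ℕ)) : ℤ) - r = (z.2 : ℤ) - ((r : ℤ) - 3 ^ n) := by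
          push_cast
          ring
        rw [h6, hL]
        push_cast
        tauto
      rw [propext h5]
      ring
    have h4 := DJ1_win a ha0 Q L (by positivity) (pst C₀ j) (hpst j).le (hcell j hj) (x : ℤ) ((r : ℤ) - 3 ^ n)
    rw [h1]
    refine h2.trans ?_
    rw [h3]
    refine (mul_le_mul_of_nonneg_left h4 hN.le).trans (le_of_eq ?_)
    unfold pst
    have h5 : (3 : ℝ) ^ n = 3 ^ j * 3 ^ (n - j) := by rw [← pow_add]; congr 1; omega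
    rw [h5]
    field_simp
  · intro z
    obtain ⟨-, -, -, p, hp, hp1, hp2⟩ := hFm z
    obtain ⟨h0, h1, h2, h3⟩ := hPb p hp
    have hfl : ∀ x : ℝ, 0 ≤ x → 0 ≤ x - (⌊(3 : ℝ) ^ n * x⌋₊ : ℝ) / 3 ^ n ∧ x - (⌊(3 : ℝ) ^ n * x⌋₊ : ℝ) / 3 ^ n ≤ 1 / 3 ^ n := by
      intro x hx
      have h5 : (⌊(3 : ℝ) ^ n * x⌋₊ : ℝ) ≤ (3 : ℝ) ^ n * x := Nat.floor_le (by positivity)
      have h6 : (3 : ℝ) ^ n * x < ⌊(3 : ℝ) ^ n * x⌋₊ + 1 := Nat.lt_floor_add_one _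
      have h7 : x - (⌊(3 : ℝ) ^ n * x⌋₊ : ℝ) / 3 ^ n = ((3 : ℝ) ^ n * x - ⌊(3 : ℝ) ^ n * x⌋₊) / 3 ^ n := by
        field_simp
      rw [h7]
      exact ⟨div_nonneg (by linarith) hN.le, div_le_div_of_nonneg_right (by linarith) hN.le⟩
    refine ⟨p, hp, ?_, ?_⟩
    · obtain ⟨e1, e2⟩ := hfl p.1 h0
      have h4 : ((c.ctr z : ℕ) : ℝ) = (⌊(3 : ℝ) ^ n * p.1⌋₊ : ℝ) := by rw [hp1]
      rw [h4, abs_of_nonneg e1]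
      exact e2
    · obtain ⟨e1, e2⟩ := hfl p.2 h2
      have h4 : ((c.R z : ℕ) : ℝ) = 3 ^ n + (⌊(3 : ℝ) ^ n * p.2⌋₊ : ℝ) := by
        rw [hp2]
        change (((3 ^ n + z.1.2 : ℕ)) : ℝ) = _
        push_cast
        rfl
      have h7 : (1 + p.2) - (3 ^ n + (⌊(3 : ℝ) ^ n * p.2⌋₊ : ℝ)) / 3 ^ n = p.2 - (⌊(3 : ℝ) ^ n * p.2⌋₊ : ℝ) / 3 ^ n := by
        field_simp
        ring
      rw [h4, h7, abs_of_nonneg e1]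
      exact e2

end

end Pool.Agent.ZQ
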